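import Mathlib

/-!
# A homogeneous cone which is not a rank-one generated hyperbolicity cone

The cone `K = {(a, b, c, x, y) : a, b, c ≥ 0, x² ≤ a b, y² ≤ a c}` in `ℝ⁵` (the dual of the Vinberg
cone) is a pointed full-dimensional homogeneous closed convex cone, but for every hyperbolic
polynomial `p` and direction `e` with `K = Λ₊(p, e)` some extreme ray of `K` is generated by an
element of rank at least two.
-/

set_option autoImplicit false

open MvPolynomial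

namespace Pool.Agent.Results.MP_3ab8ef_ag.DualVinbergCone

section Defs

variable {n : ℕ}

/-- `p` is a homogeneous polynomial which is hyperbolic along `e`: `p(e) > 0` and for every real
vector `x` all complex roots `t` of `p(x - t e)` are real. -/
def IsHyperbolic (p : MvPolynomial (Fin n) ℝ) (e : Fin n → ℝ) : Prop :=
  (∃ d : ℕ, p.IsHomogeneous d) ∧ 0 < eval e p ∧
    ∀ (x : Fin n → ℝ) (t : ℂ), aeval (fun i => (x i : ℂ) - t * (e i : ℂ)) p = 0 → t.im = 0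

/-- The univariate polynomial `t ↦ p(t e - x)`. -/
noncomputable def charPoly (p : MvPolynomial (Fin n) ℝ) (e x : Fin n → ℝ) : Polynomial ℝ :=
  aeval (fun i => Polynomial.C (e i) * Polynomial.X - Polynomial.C (x i)) p

/-- The hyperbolicity cone `Λ₊(p, e)`: all roots of `t ↦ p(t e - x)` are nonnegative. -/
def hypCone (p : MvPolynomial (Fin n) ℝ) (e : Fin n → ℝ) : Set (Fin n → ℝ) :=
  {x | ∀ t ∈ (charPoly p e x).roots, 0 ≤ t}

/-- The rank of `x`: the number of the nonzero roots of `t ↦ p(t e - x)` with multiplicities. -/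
noncomputable def rank (p : MvPolynomial (Fin n) ℝ) (e x : Fin n → ℝ) : ℕ :=
  ((charPoly p e x).roots.filter (· ≠ 0)).card

/-- `K` is a pointed, full-dimensional, closed convex cone. -/
def IsProperCone (K : Set (Fin n → ℝ)) : Prop :=
  IsClosed K ∧ (∀ x ∈ K, ∀ y ∈ K, x + y ∈ K) ∧ (∀ s : ℝ, 0 ≤ s → ∀ x ∈ K, s • x ∈ K) ∧
    (∀ x ∈ K, -x ∈ K → x = 0) ∧ (interior K).Nonempty

/-- The automorphism group of `K` acts transitively on the interior of `K`. -/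
def IsHomogeneousCone (K : Set (Fin n → ℝ)) : Prop :=
  ∀ x ∈ interior K, ∀ y ∈ interior K,
    ∃ A : (Fin n → ℝ) ≃ₗ[ℝ] (Fin n → ℝ), A '' K = K ∧ A x = y

/-- `u ≠ 0` generates an extreme ray of `K`: the ray `ℝ₊ u` lies in `K` and is a face of `K`. -/
def GeneratesExtremeRay (K : Set (Fin n → ℝ)) (u : Fin n → ℝ) : Prop :=
  u ≠ 0 ∧ u ∈ K ∧ ∀ x ∈ K, ∀ y ∈ K, (∃ s : ℝ, 0 ≤ s ∧ x + y = s • u) →
    (∃ s : ℝ, 0 ≤ s ∧ x = s • u) ∧ (∃ s : ℝ, 0 ≤ s ∧ y = s • u)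

end Defs

/-- The dual of the Vinberg cone. -/
def K : Set (Fin 5 → ℝ) :=
  {v | 0 ≤ v 0 ∧ 0 ≤ v 1 ∧ 0 ≤ v 2 ∧ v 3 ^ 2 ≤ v 0 * v 1 ∧ v 4 ^ 2 ≤ v 0 * v 2}

theorem mem_K {v : Fin 5 → ℝ} : v ∈ K ↔
    0 ≤ v 0 ∧ 0 ≤ v 1 ∧ 0 ≤ v 2 ∧ v 3 ^ 2 ≤ v 0 * v 1 ∧ v 4 ^ 2 ≤ v 0 * v 2 := Iff.rfl

theorem psd_cross {a b x c d y : ℝ} (ha : 0 ≤ a) (hb : 0 ≤ b) (hc : 0 ≤ c) (hd : 0 ≤ d)
    (h1 : x ^ 2 ≤ a * b) (h2 : y ^ 2 ≤ c * d) : 2 * (x * y) ≤ a * d + c * b := by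
  have h3 : (x * y) ^ 2 ≤ (a * d) * (c * b) := by
    have := mul_le_mul h1 h2 (sq_nonneg y) (mul_nonneg ha hb)
    calc (x * y) ^ 2 = x ^ 2 * y ^ 2 := by ring
      _ ≤ a * b * (c * d) := this
      _ = _ := by ring
  have h4 : (2 * (x * y)) ^ 2 ≤ (a * d + c * b) ^ 2 := by
    nlinarith [sq_nonneg (a * d - c * b)]
  have h5 : 0 ≤ a * d + c * b := by positivity
  exact le_trans (le_abs_self _) (abs_le_of_sq_le_sq h4 h5)

theorem psd_add {a b x c d y : ℝ} (ha : 0 ≤ a) (hb : 0 ≤ b) (hc : 0 ≤ c) (hd : 0 ≤ d)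
    (h1 : x ^ 2 ≤ a * b) (h2 : y ^ 2 ≤ c * d) : (x + y) ^ 2 ≤ (a + c) * (b + d) := by
  have := psd_cross ha hb hc hd h1 h2
  nlinarith

theorem psd_add_lt {a b x c d y : ℝ} (ha : 0 ≤ a) (hb : 0 ≤ b) (hc : 0 ≤ c) (hd : 0 ≤ d)
    (h1 : x ^ 2 ≤ a * b) (h2 : y ^ 2 < c * d) : (x + y) ^ 2 < (a + c) * (b + d) := by
  have := psd_cross ha hb hc hd h1 h2.le
  nlinarith

theorem psd_form {a b x : ℝ} (ha : 0 ≤ a) (hb : 0 ≤ b) (h1 : x ^ 2 ≤ a * b) (s t : ℝ) :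
    0 ≤ s ^ 2 * a + 2 * s * t * x + t ^ 2 * b := by
  have := psd_cross (x := x) (y := -(s * t)) ha hb (sq_nonneg t) (sq_nonneg s) h1
    (by nlinarith [sq_nonneg (s * t)])
  nlinarith

theorem isClosed_K : IsClosed K := by
  have h : K = {v : Fin 5 → ℝ | 0 ≤ v 0} ∩ ({v | 0 ≤ v 1} ∩ ({v | 0 ≤ v 2} ∩
      ({v | v 3 ^ 2 ≤ v 0 * v 1} ∩ {v | v 4 ^ 2 ≤ v 0 * v 2}))) := by
    ext v; rfl
  rw [h]
  refine IsClosed.inter (isClosed_le (by fun_prop) (by fun_prop)) <|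
    IsClosed.inter (isClosed_le (by fun_prop) (by fun_prop)) <|
    IsClosed.inter (isClosed_le (by fun_prop) (by fun_prop)) <|
    IsClosed.inter (isClosed_le (by fun_prop) (by fun_prop))
      (isClosed_le (by fun_prop) (by fun_prop))

/-- the interior of `K` -/
theorem mem_interior_K {v : Fin 5 → ℝ} : v ∈ interior K ↔
    0 < v 0 ∧ 0 < v 1 ∧ 0 < v 2 ∧ v 3 ^ 2 < v 0 * v 1 ∧ v 4 ^ 2 < v 0 * v 2 := by
  constructor
  · intro hv
    -- `v - ε (1,1,1,0,0)` lies in `K` for small `ε > 0`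
    have hcont : Filter.Tendsto (fun ε : ℝ => v - ε • (![1, 1, 1, 0, 0] : Fin 5 → ℝ))
        (nhds 0) (nhds v) := by
      have : Continuous (fun ε : ℝ => v - ε • (![1, 1, 1, 0, 0] : Fin 5 → ℝ)) := by fun_prop
      have h := this.tendsto 0
      simpa using h
    have h1 : ∀ᶠ ε in nhdsWithin (0 : ℝ) (Set.Ioi 0),
        v - ε • (![1, 1, 1, 0, 0] : Fin 5 → ℝ) ∈ K :=
      nhdsWithin_le_nhds (hcont (mem_interior_iff_mem_nhds.1 hv))
    obtain ⟨ε, hε, hε0⟩ := (h1.and self_mem_nhdsWithin).exists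
    have hε0 : 0 < ε := hε0
    rw [mem_K] at hε
    simp at hε
    obtain ⟨h0, h1, h2, h3, h4⟩ := hε
    refine ⟨by linarith, by linarith, by linarith, ?_, ?_⟩
    · have : (v 0 - ε) * (v 1 - ε) < v 0 * v 1 := by nlinarith
      linarith
    · have : (v 0 - ε) * (v 2 - ε) < v 0 * v 2 := by nlinarith
      linarith
  · intro hv
    have hopen : IsOpen {v : Fin 5 → ℝ | 0 < v 0 ∧ 0 < v 1 ∧ 0 < v 2 ∧
        v 3 ^ 2 < v 0 * v 1 ∧ v 4 ^ 2 < v 0 * v 2} := by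
      have h : {v : Fin 5 → ℝ | 0 < v 0 ∧ 0 < v 1 ∧ 0 < v 2 ∧
          v 3 ^ 2 < v 0 * v 1 ∧ v 4 ^ 2 < v 0 * v 2} =
          {v : Fin 5 → ℝ | 0 < v 0} ∩ ({v | 0 < v 1} ∩ ({v | 0 < v 2} ∩
          ({v | v 3 ^ 2 < v 0 * v 1} ∩ {v | v 4 ^ 2 < v 0 * v 2}))) := by
        ext v; rfl
      rw [h]
      refine IsOpen.inter (isOpen_lt (by fun_prop) (by fun_prop)) <|
        IsOpen.inter (isOpen_lt (by fun_prop) (by fun_prop)) <|
        IsOpen.inter (isOpen_lt (by fun_prop) (by fun_prop)) <|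
        IsOpen.inter (isOpen_lt (by fun_prop) (by fun_prop))
          (isOpen_lt (by fun_prop) (by fun_prop))
    refine interior_maximal ?_ hopen hv
    rintro w ⟨h0, h1, h2, h3, h4⟩
    exact ⟨h0.le, h1.le, h2.le, h3.le, h4.le⟩

theorem isProperCone_K : IsProperCone K := by
  refine ⟨isClosed_K, ?_, ?_, ?_, ?_⟩
  · rintro v ⟨h0, h1, h2, h3, h4⟩ w ⟨k0, k1, k2, k3, k4⟩
    refine ⟨add_nonneg h0 k0, add_nonneg h1 k1, add_nonneg h2 k2, ?_, ?_⟩
    · exact psd_add h0 h1 k0 k1 h3 k3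
    · exact psd_add h0 h2 k0 k2 h4 k4
  · rintro s hs v ⟨h0, h1, h2, h3, h4⟩
    refine ⟨mul_nonneg hs h0, mul_nonneg hs h1, mul_nonneg hs h2, ?_, ?_⟩
    · have := mul_le_mul_of_nonneg_left h3 (sq_nonneg s)
      simp only [Pi.smul_apply, smul_eq_mul]
      nlinarith
    · have := mul_le_mul_of_nonneg_left h4 (sq_nonneg s)
      simp only [Pi.smul_apply, smul_eq_mul]
      nlinarith
  · rintro v ⟨h0, h1, h2, h3, h4⟩ ⟨k0, k1, k2, k3, k4⟩
    simp only [Pi.neg_apply] at k0 k1 k2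
    have e0 : v 0 = 0 := by linarith
    have e1 : v 1 = 0 := by linarith
    have e2 : v 2 = 0 := by linarith
    have e3 : v 3 = 0 := by
      rw [e0, zero_mul] at h3
      exact pow_eq_zero_iff two_ne_zero |>.1 (le_antisymm h3 (sq_nonneg _))
    have e4 : v 4 = 0 := by
      rw [e0, zero_mul] at h4
      exact pow_eq_zero_iff two_ne_zero |>.1 (le_antisymm h4 (sq_nonneg _))
    funext i
    fin_cases i <;> simp [e0, e1, e2, e3, e4]
  · refine ⟨![1, 1, 1, 0, 0], mem_interior_K.2 ?_⟩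
    simp

/-- the linear map given by `M ↦ g M gᵀ` for the two matrices `(a x; x b)`, `(a y; y c)` and the
lower triangular matrices with rows `(α, 0), (β₁, γ₁)` and `(α, 0), (β₂, γ₂)` -/
def T (α β₁ γ₁ β₂ γ₂ : ℝ) : (Fin 5 → ℝ) →ₗ[ℝ] (Fin 5 → ℝ) where
  toFun v := ![α ^ 2 * v 0, β₁ ^ 2 * v 0 + 2 * β₁ * γ₁ * v 3 + γ₁ ^ 2 * v 1,
    β₂ ^ 2 * v 0 + 2 * β₂ * γ₂ * v 4 + γ₂ ^ 2 * v 2, α * β₁ * v 0 + α * γ₁ * v 3,
    α * β₂ * v 0 + α * γ₂ * v 4]
  map_add' v w := by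
    funext i
    fin_cases i <;> simp <;> ring
  map_smul' s v := by
    funext i
    fin_cases i <;> simp <;> ring

theorem T_mem {α β₁ γ₁ β₂ γ₂ : ℝ} {v : Fin 5 → ℝ} (hv : v ∈ K) : T α β₁ γ₁ β₂ γ₂ v ∈ K := by
  obtain ⟨h0, h1, h2, h3, h4⟩ := hv
  refine mem_K.2 ⟨?_, ?_, ?_, ?_, ?_⟩
  · simp [T]; positivity
  · have := psd_form h0 h1 h3 β₁ γ₁
    simpa [T] using this
  · have := psd_form h0 h2 h4 β₂ γ₂
    simpa [T] using this
  · simp [T]
    have := mul_le_mul_of_nonneg_left h3 (sq_nonneg (α * γ₁))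
    nlinarith
  · simp [T]
    have := mul_le_mul_of_nonneg_left h4 (sq_nonneg (α * γ₂))
    nlinarith

theorem T_T {α β₁ γ₁ β₂ γ₂ : ℝ} (hα : α ≠ 0) (h₁ : γ₁ ≠ 0) (h₂ : γ₂ ≠ 0) (v : Fin 5 → ℝ) :
    T α⁻¹ (-β₁ / (α * γ₁)) γ₁⁻¹ (-β₂ / (α * γ₂)) γ₂⁻¹ (T α β₁ γ₁ β₂ γ₂ v) = v := by
  funext i
  fin_cases i
  · simp [T]; field_simp
  · simp [T]; field_simp; ring
  · simp [T]; field_simp; ring
  · simp [T]; field_simp; ring
  · simp [T]; field_simp; ring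

theorem T_T' {α β₁ γ₁ β₂ γ₂ : ℝ} (hα : α ≠ 0) (h₁ : γ₁ ≠ 0) (h₂ : γ₂ ≠ 0) (v : Fin 5 → ℝ) :
    T α β₁ γ₁ β₂ γ₂ (T α⁻¹ (-β₁ / (α * γ₁)) γ₁⁻¹ (-β₂ / (α * γ₂)) γ₂⁻¹ v) = v := by
  funext i
  fin_cases i
  · simp [T]; field_simp
  · simp [T]; field_simp; ring
  · simp [T]; field_simp; ring
  · simp [T]; field_simp; ring
  · simp [T]; field_simp; ring

noncomputable def TE (α β₁ γ₁ β₂ γ₂ : ℝ) (hα : α ≠ 0) (h₁ : γ₁ ≠ 0) (h₂ : γ₂ ≠ 0) :
    (Fin 5 → ℝ) ≃ₗ[ℝ] (Fin 5 → ℝ) :=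
  { T α β₁ γ₁ β₂ γ₂ with
    invFun := T α⁻¹ (-β₁ / (α * γ₁)) γ₁⁻¹ (-β₂ / (α * γ₂)) γ₂⁻¹
    left_inv := T_T hα h₁ h₂
    right_inv := T_T' hα h₁ h₂ }

theorem exists_aut {v : Fin 5 → ℝ} (hv : v ∈ interior K) :
    ∃ A : (Fin 5 → ℝ) ≃ₗ[ℝ] (Fin 5 → ℝ), A '' K = K ∧ A ![1, 1, 1, 0, 0] = v := by
  obtain ⟨h0, h1, h2, h3, h4⟩ := mem_interior_K.1 hv
  have hα : Real.sqrt (v 0) ≠ 0 := (Real.sqrt_pos.2 h0).ne'
  have hg1 : 0 < v 1 - v 3 ^ 2 / v 0 := by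
    rw [sub_pos, div_lt_iff₀ h0]; linarith
  have hg2 : 0 < v 2 - v 4 ^ 2 / v 0 := by
    rw [sub_pos, div_lt_iff₀ h0]; linarith
  have hγ1 : Real.sqrt (v 1 - v 3 ^ 2 / v 0) ≠ 0 := (Real.sqrt_pos.2 hg1).ne'
  have hγ2 : Real.sqrt (v 2 - v 4 ^ 2 / v 0) ≠ 0 := (Real.sqrt_pos.2 hg2).ne'
  refine ⟨TE (Real.sqrt (v 0)) (v 3 / Real.sqrt (v 0)) (Real.sqrt (v 1 - v 3 ^ 2 / v 0))
    (v 4 / Real.sqrt (v 0)) (Real.sqrt (v 2 - v 4 ^ 2 / v 0)) hα hγ1 hγ2, ?_, ?_⟩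
  · apply Set.Subset.antisymm
    · rintro _ ⟨w, hw, rfl⟩
      exact T_mem hw
    · intro w hw
      exact ⟨_, T_mem hw, T_T' hα hγ1 hγ2 w⟩
  · have e0 : Real.sqrt (v 0) ^ 2 = v 0 := Real.sq_sqrt h0.le
    have e1 : Real.sqrt (v 1 - v 3 ^ 2 / v 0) ^ 2 = v 1 - v 3 ^ 2 / v 0 := Real.sq_sqrt hg1.le
    have e2 : Real.sqrt (v 2 - v 4 ^ 2 / v 0) ^ 2 = v 2 - v 4 ^ 2 / v 0 := Real.sq_sqrt hg2.le
    have key : T (Real.sqrt (v 0)) (v 3 / Real.sqrt (v 0)) (Real.sqrt (v 1 - v 3 ^ 2 / v 0))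
        (v 4 / Real.sqrt (v 0)) (Real.sqrt (v 2 - v 4 ^ 2 / v 0)) ![1, 1, 1, 0, 0] = v := by
      funext i
      fin_cases i
      · simp [T, e0]
      · simp [T, e1, div_pow, e0]
      · simp [T, e2, div_pow, e0]
      · simp [T]; field_simp
      · simp [T]; field_simp
    exact key

theorem isHomogeneousCone_K : IsHomogeneousCone K := by
  intro x hx y hy
  obtain ⟨A, hA, hA1⟩ := exists_aut hx
  obtain ⟨B, hB, hB1⟩ := exists_aut hy
  refine ⟨A.symm.trans B, ?_, ?_⟩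
  · have h1 : (A.symm.trans B : (Fin 5 → ℝ) → (Fin 5 → ℝ)) = B ∘ A.symm := rfl
    rw [h1, Set.image_comp]
    have h2 : A.symm '' K = K := by
      conv_lhs => rw [← hA]
      rw [← Set.image_comp]
      simp
    rw [h2, hB]
  · rw [LinearEquiv.trans_apply, ← hA1, LinearEquiv.symm_apply_apply, hB1]

section Main

variable {p : MvPolynomial (Fin 5) ℝ} {e : Fin 5 → ℝ} {d : ℕ}

theorem eval_charPoly (p : MvPolynomial (Fin 5) ℝ) (e x : Fin 5 → ℝ) (t : ℝ) :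
    (charPoly p e x).eval t = eval (t • e - x) p := by
  have h1 : (charPoly p e x).eval t = (Polynomial.aeval t : Polynomial ℝ →ₐ[ℝ] ℝ)
      (charPoly p e x) := by
    rw [Polynomial.coe_aeval_eq_eval]
  rw [h1, charPoly, ← AlgHom.comp_apply, comp_aeval, aeval_eq_eval]
  have h2 : (fun i => (Polynomial.aeval t) (Polynomial.C (e i) * Polynomial.X -
      Polynomial.C (x i))) = t • e - x := by
    funext i
    simp
    ring
  rw [h2]

theorem continuous_eval' (p : MvPolynomial (Fin 5) ℝ) : Continuous fun v => eval v p :=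
  MvPolynomial.continuous_eval p

theorem eval_smul' (hp : p.IsHomogeneous d) (s : ℝ) (v : Fin 5 → ℝ) :
    eval (s • v) p = s ^ d * eval v p := by
  rw [eval_eq, eval_eq, Finset.mul_sum]
  refine Finset.sum_congr rfl fun m hm => ?_
  have hm' : m.degree = d := by
    have h1 := hp (mem_support_iff.1 hm)
    rw [Finsupp.degree_eq_weight_one]
    exact h1
  simp only [Pi.smul_apply, smul_eq_mul, mul_pow, Finset.prod_mul_distrib]
  rw [Finset.prod_pow_eq_pow_sum]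
  have h : ∑ i ∈ m.support, m i = d := by
    rw [← hm']; rfl
  rw [h]
  ring

theorem eval_neg' (hp : p.IsHomogeneous d) {v : Fin 5 → ℝ} (h : eval (-v) p = 0) :
    eval v p = 0 := by
  have h1 := eval_smul' hp (-1) v
  rw [neg_one_smul, h] at h1
  rcases mul_eq_zero.1 h1.symm with h2 | h2
  · exact absurd h2 (pow_ne_zero _ (by norm_num))
  · exact h2

theorem nonvanishing (hp : p.IsHomogeneous d) (he : 0 < eval e p) (w : Fin 5 → ℝ) :
    ∃ M : ℝ, 0 < M ∧ ∀ s : ℝ, M < |s| → eval (s • e - w) p ≠ 0 := by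
  have hc : Continuous fun τ : ℝ => eval (e - τ • w) p :=
    (continuous_eval' p).comp (by fun_prop)
  have h0 : ∀ᶠ τ in nhds (0 : ℝ), 0 < eval (e - τ • w) p := by
    apply (hc.tendsto 0).eventually_const_lt
    simpa using he
  obtain ⟨δ, hδ, hball⟩ := Metric.eventually_nhds_iff.1 h0
  refine ⟨δ⁻¹, inv_pos.2 hδ, fun s hs => ?_⟩
  have hs0 : s ≠ 0 := by
    rintro rfl
    rw [abs_zero] at hs
    exact absurd hs (not_lt.2 (inv_pos.2 hδ).le)
  have h1 : 0 < eval (e - s⁻¹ • w) p := by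
    apply hball
    rw [dist_zero_right, Real.norm_eq_abs, abs_inv]
    exact inv_lt_of_inv_lt₀ hδ hs
  have h2 : s • e - w = s • (e - s⁻¹ • w) := by
    rw [smul_sub, smul_smul, mul_inv_cancel₀ hs0, one_smul]
  rw [h2, eval_smul' hp]
  exact mul_ne_zero (pow_ne_zero _ hs0) h1.ne'

theorem charPoly_ne_zero (hp : p.IsHomogeneous d) (he : 0 < eval e p) (w : Fin 5 → ℝ) :
    charPoly p e w ≠ 0 := by
  obtain ⟨M, hM, h⟩ := nonvanishing hp he w
  intro h0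
  have h1 := h (M + 1) (by rw [abs_of_pos (by linarith)]; linarith)
  rw [← eval_charPoly, h0, Polynomial.eval_zero] at h1
  exact h1 rfl

theorem mem_hypCone (hp : p.IsHomogeneous d) (he : 0 < eval e p) {w : Fin 5 → ℝ} :
    w ∈ hypCone p e ↔ ∀ t : ℝ, eval (t • e - w) p = 0 → 0 ≤ t := by
  constructor
  · intro h t ht
    apply h
    rw [Polynomial.mem_roots (charPoly_ne_zero hp he w), Polynomial.IsRoot.def, eval_charPoly, ht]
  · intro h t ht
    apply h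
    rw [Polynomial.mem_roots (charPoly_ne_zero hp he w), Polynomial.IsRoot.def,
      eval_charPoly] at ht
    exact ht

variable (hp : p.IsHomogeneous d) (he : 0 < eval e p) (hK : K = hypCone p e)

include hp he hK

theorem order_unit (w : Fin 5 → ℝ) : ∃ T : ℝ, 0 < T ∧ T • e + w ∈ K := by
  obtain ⟨M, hM, h⟩ := nonvanishing hp he w
  refine ⟨M, hM, ?_⟩
  rw [hK, mem_hypCone hp he]
  intro t ht
  by_contra hneg
  push Not at hneg
  refine h (t - M) ?_ ?_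
  · rw [abs_of_neg (by linarith)]; linarith
  · rw [← ht]
    congr 2
    rw [sub_smul]
    abel

theorem e_pos : 0 < e 0 ∧ 0 < e 1 ∧ 0 < e 2 ∧ e 3 ^ 2 < e 0 * e 1 ∧ e 4 ^ 2 < e 0 * e 2 := by
  obtain ⟨M, hM, h⟩ := order_unit hp he hK (-![1, 1, 1, 0, 0])
  rw [mem_K] at h
  simp at h
  obtain ⟨h0, h1, h2, h3, h4⟩ := h
  have k0 : 0 < e 0 := by by_contra hn; push Not at hn; nlinarith
  have k1 : 0 < e 1 := by by_contra hn; push Not at hn; nlinarith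
  have k2 : 0 < e 2 := by by_contra hn; push Not at hn; nlinarith
  refine ⟨k0, k1, k2, ?_, ?_⟩
  · have h5 : (M * e 0 + -1) * (M * e 1 + -1) < M ^ 2 * (e 0 * e 1) := by nlinarith
    have h6 : M ^ 2 * e 3 ^ 2 < M ^ 2 * (e 0 * e 1) := by nlinarith
    exact lt_of_mul_lt_mul_left h6 (sq_nonneg M)
  · have h5 : (M * e 0 + -1) * (M * e 2 + -1) < M ^ 2 * (e 0 * e 2) := by nlinarith
    have h6 : M ^ 2 * e 4 ^ 2 < M ^ 2 * (e 0 * e 2) := by nlinarith
    exact lt_of_mul_lt_mul_left h6 (sq_nonneg M)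

theorem boundary_zero {v : Fin 5 → ℝ} (hv : v ∈ K)
    (hb : v 3 ^ 2 = v 0 * v 1 ∨ v 4 ^ 2 = v 0 * v 2) : eval v p = 0 := by
  obtain ⟨k0, k1, k2, k3, k4⟩ := e_pos hp he hK
  -- `v - ε e` is not in `K`
  have hout : ∀ ε : ℝ, 0 < ε → v - ε • e ∉ K := by
    intro ε hε hmem
    obtain ⟨h0, h1, h2, h3, h4⟩ := mem_K.1 hmem
    have hε2 : 0 < ε ^ 2 := by positivity
    rcases hb with hb | hb
    · have := psd_add_lt (y := ε * e 3) h0 h1 (mul_pos hε k0).le (mul_pos hε k1).le h3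
        (by nlinarith [mul_lt_mul_of_pos_left k3 hε2])
      simp at this
      linarith
    · have := psd_add_lt (y := ε * e 4) h0 h2 (mul_pos hε k0).le (mul_pos hε k2).le h4
        (by nlinarith [mul_lt_mul_of_pos_left k4 hε2])
      simp at this
      linarith
  have hroot : ∀ ε : ℝ, 0 < ε → ∃ s : ℝ, 0 ≤ s ∧ s < ε ∧ eval (s • e - v) p = 0 := by
    intro ε hε
    have h := hout ε hε
    rw [hK, mem_hypCone hp he] at h
    push Not at h
    obtain ⟨t, ht, ht0⟩ := h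
    refine ⟨t + ε, ?_, by linarith, ?_⟩
    · have hv' := hv
      rw [hK, mem_hypCone hp he] at hv'
      apply hv'
      rw [← ht]
      congr 2
      rw [add_smul]
      abel
    · rw [← ht]
      congr 2
      rw [add_smul]
      abel
  apply eval_neg' hp
  by_contra hne
  have hc : Continuous fun s : ℝ => eval (s • e - v) p :=
    (continuous_eval' p).comp (by fun_prop)
  have h0 : ∀ᶠ s in nhds (0 : ℝ), eval (s • e - v) p ≠ 0 := by
    apply (hc.tendsto 0).eventually_ne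
    simpa using hne
  obtain ⟨δ, hδ, hball⟩ := Metric.eventually_nhds_iff.1 h0
  obtain ⟨s, hs0, hs1, hs2⟩ := hroot δ hδ
  refine hball ?_ hs2
  rw [dist_zero_right, Real.norm_eq_abs, abs_of_nonneg hs0]
  exact hs1

theorem variety_zero1 {v : Fin 5 → ℝ} (h1 : v 1 ≠ 0) (h : v 0 * v 1 = v 3 ^ 2) :
    eval v p = 0 := by
  -- coordinates `(b, c, x, y)` of `Fin 4`
  set G : MvPolynomial (Fin 4) ℝ := aeval (![X 2 ^ 2, X 0 ^ 2, X 0 * X 1, X 0 * X 2, X 0 * X 3] :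
    Fin 5 → MvPolynomial (Fin 4) ℝ) p with hG
  have hGe : ∀ w : Fin 4 → ℝ, eval w G =
      eval ![w 2 ^ 2, w 0 ^ 2, w 0 * w 1, w 0 * w 2, w 0 * w 3] p := by
    intro w
    rw [hG, ← aeval_eq_eval, ← AlgHom.comp_apply, comp_aeval, aeval_eq_eval]
    congr 2
    funext i
    fin_cases i <;> simp
  have hG0 : G = 0 := by
    refine MvPolynomial.funext_set (![Set.Ioo 1 2, Set.Ioo 2 3, Set.Ioo 1 2, Set.Ioo 0 1] :
      Fin 4 → Set ℝ) ?_ ?_
    · intro i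
      fin_cases i
      · exact Set.Ioo_infinite (by norm_num)
      · exact Set.Ioo_infinite (by norm_num)
      · exact Set.Ioo_infinite (by norm_num)
      · exact Set.Ioo_infinite (by norm_num)
    · intro w hw
      have w0 := hw 0 (Set.mem_univ _)
      have w1 := hw 1 (Set.mem_univ _)
      have w2 := hw 2 (Set.mem_univ _)
      have w3 := hw 3 (Set.mem_univ _)
      simp at w0 w1 w2 w3
      rw [hGe, map_zero]
      apply boundary_zero hp he hK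
      · rw [mem_K]
        simp
        refine ⟨sq_nonneg _, sq_nonneg _, mul_nonneg (by linarith) (by linarith), ?_, ?_⟩
        · exact le_of_eq (by ring)
        · have e1 : w 3 ^ 2 ≤ 1 := by nlinarith
          have e2 : 1 ≤ w 2 ^ 2 := by nlinarith
          have e3 : w 0 * w 3 ^ 2 ≤ w 1 * w 2 ^ 2 := by nlinarith
          nlinarith
      · left
        simp
        ring
  have h2 := hGe ![v 1, v 2, v 3, v 4]
  rw [hG0, map_zero] at h2
  have h3 : (![(![v 1, v 2, v 3, v 4] : Fin 4 → ℝ) 2 ^ 2, (![v 1, v 2, v 3, v 4] : Fin 4 → ℝ) 0 ^ 2,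
      (![v 1, v 2, v 3, v 4] : Fin 4 → ℝ) 0 * (![v 1, v 2, v 3, v 4] : Fin 4 → ℝ) 1,
      (![v 1, v 2, v 3, v 4] : Fin 4 → ℝ) 0 * (![v 1, v 2, v 3, v 4] : Fin 4 → ℝ) 2,
      (![v 1, v 2, v 3, v 4] : Fin 4 → ℝ) 0 * (![v 1, v 2, v 3, v 4] : Fin 4 → ℝ) 3] :
      Fin 5 → ℝ) = v 1 • v := by
    funext i
    fin_cases i
    · simp; linarith
    · simp; ring
    · simp
    · simp
    · simp
  rw [h3, eval_smul' hp] at h2
  rcases mul_eq_zero.1 h2.symm with h4 | h4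
  · exact absurd h4 (pow_ne_zero _ h1)
  · exact h4

theorem variety_zero2 {v : Fin 5 → ℝ} (h1 : v 2 ≠ 0) (h : v 0 * v 2 = v 4 ^ 2) :
    eval v p = 0 := by
  -- coordinates `(b, c, x, y)` of `Fin 4`
  set G : MvPolynomial (Fin 4) ℝ := aeval (![X 3 ^ 2, X 1 * X 0, X 1 ^ 2, X 1 * X 2, X 1 * X 3] :
    Fin 5 → MvPolynomial (Fin 4) ℝ) p with hG
  have hGe : ∀ w : Fin 4 → ℝ, eval w G =
      eval ![w 3 ^ 2, w 1 * w 0, w 1 ^ 2, w 1 * w 2, w 1 * w 3] p := by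
    intro w
    rw [hG, ← aeval_eq_eval, ← AlgHom.comp_apply, comp_aeval, aeval_eq_eval]
    congr 2
    funext i
    fin_cases i <;> simp
  have hG0 : G = 0 := by
    refine MvPolynomial.funext_set (![Set.Ioo 2 3, Set.Ioo 1 2, Set.Ioo 0 1, Set.Ioo 1 2] :
      Fin 4 → Set ℝ) ?_ ?_
    · intro i
      fin_cases i
      · exact Set.Ioo_infinite (by norm_num)
      · exact Set.Ioo_infinite (by norm_num)
      · exact Set.Ioo_infinite (by norm_num)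
      · exact Set.Ioo_infinite (by norm_num)
    · intro w hw
      have w0 := hw 0 (Set.mem_univ _)
      have w1 := hw 1 (Set.mem_univ _)
      have w2 := hw 2 (Set.mem_univ _)
      have w3 := hw 3 (Set.mem_univ _)
      simp at w0 w1 w2 w3
      rw [hGe, map_zero]
      apply boundary_zero hp he hK
      · rw [mem_K]
        simp
        refine ⟨sq_nonneg _, mul_nonneg (by linarith) (by linarith), sq_nonneg _, ?_, ?_⟩
        · have e1 : w 2 ^ 2 ≤ 1 := by nlinarith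
          have e2 : 1 ≤ w 3 ^ 2 := by nlinarith
          have e3 : w 1 * w 2 ^ 2 ≤ w 0 * w 3 ^ 2 := by nlinarith
          nlinarith
        · exact le_of_eq (by ring)
      · right
        simp
        ring
  have h2 := hGe ![v 1, v 2, v 3, v 4]
  rw [hG0, map_zero] at h2
  have h3 : (![(![v 1, v 2, v 3, v 4] : Fin 4 → ℝ) 3 ^ 2,
      (![v 1, v 2, v 3, v 4] : Fin 4 → ℝ) 1 * (![v 1, v 2, v 3, v 4] : Fin 4 → ℝ) 0,
      (![v 1, v 2, v 3, v 4] : Fin 4 → ℝ) 1 ^ 2,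
      (![v 1, v 2, v 3, v 4] : Fin 4 → ℝ) 1 * (![v 1, v 2, v 3, v 4] : Fin 4 → ℝ) 2,
      (![v 1, v 2, v 3, v 4] : Fin 4 → ℝ) 1 * (![v 1, v 2, v 3, v 4] : Fin 4 → ℝ) 3] :
      Fin 5 → ℝ) = v 2 • v := by
    funext i
    fin_cases i
    · simp; linarith
    · simp
    · simp; ring
    · simp
    · simp
  rw [h3, eval_smul' hp] at h2
  rcases mul_eq_zero.1 h2.symm with h4 | h4
  · exact absurd h4 (pow_ne_zero _ h1)
  · exact h4

omit hp he hK in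
theorem extreme (η : ℝ) : GeneratesExtremeRay K ![1, 0, η ^ 2, 0, η] := by
  refine ⟨fun h => ?_, ?_, ?_⟩
  · have := congrFun h 0
    simp at this
  · rw [mem_K]
    simp
    exact sq_nonneg _
  · rintro v ⟨h0, h1, h2, h3, h4⟩ w ⟨k0, k1, k2, k3, k4⟩ ⟨s, hs, hvw⟩
    have e0 := congrFun hvw 0
    have e1 := congrFun hvw 1
    have e2 := congrFun hvw 2
    have e3 := congrFun hvw 3
    have e4 := congrFun hvw 4
    simp at e0 e1 e2 e3 e4
    have f1 := psd_form h0 h2 h4 η (-1)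
    have f2 := psd_form k0 k2 k4 η (-1)
    have f3 : η ^ 2 * v 0 + 2 * η * (-1) * v 4 + (-1) ^ 2 * v 2 +
        (η ^ 2 * w 0 + 2 * η * (-1) * w 4 + (-1) ^ 2 * w 2) = 0 := by
      have : η ^ 2 * (v 0 + w 0) - 2 * η * (v 4 + w 4) + (v 2 + w 2) = 0 := by
        rw [e0, e4, e2]; ring
      linarith
    have key : ∀ z : Fin 5 → ℝ, 0 ≤ z 0 → z 1 = 0 → z 3 ^ 2 ≤ z 0 * z 1 → z 4 ^ 2 ≤ z 0 * z 2 →
        η ^ 2 * z 0 + 2 * η * (-1) * z 4 + (-1) ^ 2 * z 2 = 0 →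
        ∃ s : ℝ, 0 ≤ s ∧ z = s • (![1, 0, η ^ 2, 0, η] : Fin 5 → ℝ) := by
      intro z z0 z1 z3 z4 hz
      have g3 : z 3 = 0 := by
        rw [z1, mul_zero] at z3
        exact pow_eq_zero_iff two_ne_zero |>.1 (le_antisymm z3 (sq_nonneg _))
      have g4 : z 4 = η * z 0 := by
        have : (z 4 - η * z 0) ^ 2 ≤ 0 := by nlinarith
        have := pow_eq_zero_iff two_ne_zero |>.1 (le_antisymm this (sq_nonneg _))
        linarith
      have g2 : z 2 = η ^ 2 * z 0 := by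
        rw [g4] at hz
        linarith
      refine ⟨z 0, z0, ?_⟩
      funext i
      fin_cases i
      · simp
      · simp [z1]
      · simp [g2, mul_comm]
      · simp [g3]
      · simp [g4, mul_comm]
    exact ⟨key v h0 (by linarith) h3 h4 (by linarith), key w k0 (by linarith) k3 k4 (by linarith)⟩

theorem exists_rank_two : ∃ u, GeneratesExtremeRay K u ∧ 2 ≤ rank p e u := by
  obtain ⟨k0, k1, k2, k3, k4⟩ := e_pos hp he hK
  have hD1 : 0 < e 0 * e 1 - e 3 ^ 2 := by linarith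
  have hD2 : 0 < e 0 * e 2 - e 4 ^ 2 := by linarith
  set l1 : ℝ := e 1 / (e 0 * e 1 - e 3 ^ 2) with hl1
  have hl1pos : 0 < l1 := div_pos k1 hD1
  obtain ⟨N, hN1, hN2⟩ : ∃ N : ℝ, 1 ≤ N ∧ l1 * (e 0 * e 2 - e 4 ^ 2) < N ^ 2 * e 0 := by
    refine ⟨1 + l1 * (e 0 * e 2 - e 4 ^ 2) / e 0, ?_, ?_⟩
    · have : 0 ≤ l1 * (e 0 * e 2 - e 4 ^ 2) / e 0 := by positivity
      linarith
    · set B := l1 * (e 0 * e 2 - e 4 ^ 2) with hB
      have hBpos : 0 < B := mul_pos hl1pos hD2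
      have h1 : B / e 0 * e 0 = B := div_mul_cancel₀ _ k0.ne'
      have h2 : 0 < B / e 0 := div_pos hBpos k0
      nlinarith [mul_pos h2 k0, mul_pos (mul_pos h2 h2) k0]
  obtain ⟨η, hη1, hη2⟩ : ∃ η : ℝ, η * e 4 ≤ 0 ∧ η ^ 2 = N ^ 2 := by
    rcases le_total (e 4) 0 with h | h
    · exact ⟨N, mul_nonpos_of_nonneg_of_nonpos (by linarith) h, rfl⟩
    · exact ⟨-N, mul_nonpos_of_nonpos_of_nonneg (by linarith) h, by ring⟩
  set l2 : ℝ := (e 2 - 2 * η * e 4 + η ^ 2 * e 0) / (e 0 * e 2 - e 4 ^ 2) with hl2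
  have hlt : l1 < l2 := by
    rw [hl2, lt_div_iff₀ hD2, hη2]
    nlinarith
  refine ⟨![1, 0, η ^ 2, 0, η], extreme η, ?_⟩
  have r1 : eval (l1 • e - ![1, 0, η ^ 2, 0, η]) p = 0 := by
    apply variety_zero1 hp he hK
    · simp
      exact ⟨hl1pos.ne', k1.ne'⟩
    · simp
      have h1 : l1 * (e 0 * e 1 - e 3 ^ 2) = e 1 := div_mul_cancel₀ _ hD1.ne'
      linear_combination l1 * h1
  have r2 : eval (l2 • e - ![1, 0, η ^ 2, 0, η]) p = 0 := by
    have h1 : l2 * (e 0 * e 2 - e 4 ^ 2) = e 2 - 2 * η * e 4 + η ^ 2 * e 0 :=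
      div_mul_cancel₀ _ hD2.ne'
    apply variety_zero2 hp he hK
    · simp
      intro h0
      have h2 : (l2 * e 2 - η ^ 2) * (e 0 * e 2 - e 4 ^ 2) = (e 2 - η * e 4) ^ 2 := by
        linear_combination e 2 * h1
      rw [h0, zero_mul] at h2
      have h3 : 0 < e 2 - η * e 4 := by linarith
      nlinarith [pow_pos h3 2]
    · simp
      linear_combination l2 * h1
  have hne : charPoly p e ![1, 0, η ^ 2, 0, η] ≠ 0 := charPoly_ne_zero hp he _
  have hsub : ({l1, l2} : Finset ℝ) ⊆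
      ((charPoly p e ![1, 0, η ^ 2, 0, η]).roots.filter (· ≠ 0)).toFinset := by
    intro t ht
    rw [Multiset.mem_toFinset, Multiset.mem_filter, Polynomial.mem_roots hne,
      Polynomial.IsRoot.def, eval_charPoly]
    rcases Finset.mem_insert.1 ht with rfl | ht
    · exact ⟨r1, hl1pos.ne'⟩
    · rw [Finset.mem_singleton] at ht
      subst ht
      exact ⟨r2, (hl1pos.trans hlt).ne'⟩
  have hcard : ({l1, l2} : Finset ℝ).card = 2 := Finset.card_pair hlt.ne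
  calc 2 = ({l1, l2} : Finset ℝ).card := hcard.symm
    _ ≤ _ := Finset.card_le_card hsub
    _ ≤ _ := Multiset.toFinset_card_le _

end Main

/-- There is a pointed full-dimensional homogeneous closed convex cone `C` in `ℝ⁵` such that for
all `p`, `e` with `p` hyperbolic along `e` and `C = Λ₊(p, e)` some extreme ray of `C` is generated
by an element of rank at least `2` with respect to `p` and `e`. -/
theorem result : ∃ C : Set (Fin 5 → ℝ), IsProperCone C ∧ IsHomogeneousCone C ∧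
    ∀ (p : MvPolynomial (Fin 5) ℝ) (e : Fin 5 → ℝ), IsHyperbolic p e → C = hypCone p e →
      ∃ u, GeneratesExtremeRay C u ∧ 2 ≤ rank p e u := by
  refine ⟨K, isProperCone_K, isHomogeneousCone_K, fun p e hpe hK => ?_⟩
  obtain ⟨⟨d, hp⟩, he, -⟩ := hpe
  exact exists_rank_two hp he hK

end Pool.Agent.Results.MP_3ab8ef_ag.DualVinbergCone
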